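import Pool.Agent.X92.Pf4

/-!
Pfluger's second question (regular growth in the case of equality) has a negative answer for
every order `0 < ρ ≤ 1/2`, where `K(ρ) = 1`.
-/

set_option autoImplicit false

namespace Pool.Agent.Results.MP_f2c8f8_an.IrregularGrowth

open Filter Topology ValueDistribution

/-- For every `0 < ρ ≤ 1/2` there is an entire function `f` of order `ρ` and lower order `0` (so not
of regular growth) with `limsup (N(r,0) + N(r,∞)) / T(r,f) = 1`. -/
theorem result (ρ : ℝ) (h0 : 0 < ρ) (h1 : ρ ≤ 1 / 2) :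
    ∃ f : ℂ → ℂ, Differentiable ℂ f ∧
      limsup (fun r : ℝ => ((Real.log (characteristic f ⊤ r) / Real.log r : ℝ) : EReal)) atTop
        = (ρ : EReal) ∧
      liminf (fun r : ℝ => ((Real.log (characteristic f ⊤ r) / Real.log r : ℝ) : EReal)) atTop
        = 0 ∧
      limsup (fun r : ℝ => (((logCounting f 0 r + logCounting f ⊤ r) /
        characteristic f ⊤ r : ℝ) : EReal)) atTop = 1 := by
  have h2 : ρ ≤ 1 := by linarith
  refine ⟨Pool.Agent.X92.Pf.F ρ, Pool.Agent.X92.Pf.F_diff, ?_, ?_, ?_⟩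
  · exact le_antisymm (Pool.Agent.X92.Pf.order_le h0) (Pool.Agent.X92.Pf.order_ge h0 h2)
  · exact Pool.Agent.X92.Pf.lower_eq h0 h2
  · exact Pool.Agent.X92.Pf.ratio_eq h0 h2

end Pool.Agent.Results.MP_f2c8f8_an.IrregularGrowth
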